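import Pool.Agent.Helper77.KZ.Defs
import Pool.Agent.Helper18.Katz10

/-! Support file for MP_0aa406_nt: module KZ-12 (two plus signs). -/

set_option autoImplicit false

namespace Helper84KZ

open Finset

variable {n : ℕ}

theorem pairs [NeZero n] (hodd : Odd n) {δ : ZMod n} (hδ : δ ≠ 0) :
    ∃ R : Finset (ZMod n), (∀ x, x ∈ R ∨ x + δ ∈ R) ∧ 2 * R.card * n.minFac ≤ n * n.minFac + n := by
  classical
  set N := addOrderOf δ with hN
  have hN0 : 0 < N := addOrderOf_pos δ
  have hNn : N ∣ n := by
    have h := addOrderOf_dvd_card (x := δ)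
    rwa [ZMod.card] at h
  have hNodd : Odd N := hodd.of_dvd_nat hNn
  have hN1 : N ≠ 1 := fun h => hδ (AddMonoid.addOrderOf_eq_one_iff.mp h)
  have hmin : n.minFac ≤ N := Nat.minFac_le_of_dvd (by omega) hNn
  -- representatives of the cosets
  let q : ZMod n → ZMod n := fun x => (Quotient.out (x : ZMod n ⧸ AddSubgroup.zmultiples δ))
  have hq : ∀ x y : ZMod n, (∃ k : ℤ, k • δ = y - x) → q x = q y := by
    intro x y ⟨k, hk⟩
    have : (x : ZMod n ⧸ AddSubgroup.zmultiples δ) = (y : ZMod n ⧸ AddSubgroup.zmultiples δ) := by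
      rw [QuotientAddGroup.eq]
      exact ⟨k, by show k • δ = -x + y; rw [hk]; ring⟩
    show Quotient.out _ = Quotient.out _
    rw [this]
  have hex : ∀ x : ZMod n, ∃ j : ℕ, j • δ = x - q x := by
    intro x
    have h : ((q x : ZMod n) : ZMod n ⧸ AddSubgroup.zmultiples δ) =
        (x : ZMod n ⧸ AddSubgroup.zmultiples δ) := QuotientAddGroup.out_eq' _
    rw [QuotientAddGroup.eq] at h
    have h2 := mem_zmultiples_iff_mem_range_addOrderOf.mp h
    obtain ⟨j, -, hj⟩ := Finset.mem_image.mp h2
    exact ⟨j, by rw [hj]; ring⟩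
  let j : ZMod n → ℕ := fun x => Nat.find (hex x)
  have hj : ∀ x, j x • δ = x - q x := fun x => Nat.find_spec (hex x)
  have hjN : ∀ x, j x < N := by
    intro x
    refine lt_of_le_of_lt (Nat.find_min' (hex x) ?_) (Nat.mod_lt (j x) hN0)
    rw [hN, mod_addOrderOf_nsmul]
    exact hj x
  have hinj : ∀ a b : ℕ, a < N → b < N → a • δ = b • δ → a = b := fun a b ha hb h =>
    nsmul_injOn_Iio_addOrderOf (Set.mem_Iio.mpr ha) (Set.mem_Iio.mpr hb) h
  have huniq : ∀ x (i : ℕ), i < N → i • δ = x - q x → j x = i := fun x i hi h =>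
    hinj _ _ (hjN x) hi ((hj x).trans h.symm)
  refine ⟨univ.filter (fun x => Even (j x)), ?_, ?_⟩
  · intro x
    by_cases hx : Even (j x)
    · exact Or.inl (by simpa using hx)
    · right
      have hx' : Odd (j x) := Nat.not_even_iff_odd.mp hx
      have h1 : j x + 1 < N := by
        have := hjN x
        rcases hx' with ⟨a, ha⟩
        rcases hNodd with ⟨b, hb⟩
        omega
      have h2 : j (x + δ) = j x + 1 := by
        refine huniq _ _ h1 ?_
        rw [succ_nsmul, hj, ← hq x (x + δ) ⟨1, by rw [one_zsmul]; ring⟩]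
        ring
      simp only [mem_filter, mem_univ, true_and]
      rw [h2]
      exact hx'.add_one
  · set R := univ.filter (fun x : ZMod n => Even (j x)) with hR
    set O := univ.filter (fun x : ZMod n => ¬ Even (j x)) with hO
    set R0 := univ.filter (fun x : ZMod n => j x = 0) with hR0
    have h1 : R.card + O.card = n := by
      have := Finset.card_filter_add_card_filter_not (s := (univ : Finset (ZMod n)))
        (fun x => Even (j x))
      rwa [Finset.card_univ, ZMod.card] at this
    have h2 : (R \ R0).card ≤ O.card := by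
      refine Finset.card_le_card_of_injOn (fun x => x - δ) ?_ (fun a _ b _ h => sub_left_inj.mp h)
      intro x hx
      simp only [hR, hR0, coe_sdiff, coe_filter, mem_univ, true_and, Set.mem_sdiff,
        Set.mem_ofPred_eq] at hx
      simp only [hO, coe_filter, mem_univ, true_and, Set.mem_ofPred_eq]
      have h3 : j (x - δ) = j x - 1 := by
        refine huniq _ _ (by have := hjN x; omega) ?_
        have h4 : (j x - 1 + 1) • δ = x - q x := by
          rw [show j x - 1 + 1 = j x by omega]
          exact hj x
        rw [succ_nsmul] at h4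
        rw [hq (x - δ) x ⟨1, by rw [one_zsmul]; ring⟩]
        linear_combination h4
      rw [h3]
      intro he
      rcases hx.1 with ⟨a, ha⟩
      rcases he with ⟨b, hb⟩
      omega
    have h3 : R.card ≤ (R \ R0).card + R0.card := by
      have := Finset.le_card_sdiff R0 R
      omega
    have h4 : R0.card * N ≤ n := by
      have h5 : (R0 ×ˢ Finset.range N).card ≤ (univ : Finset (ZMod n)).card := by
        refine Finset.card_le_card_of_injOn (fun p => p.1 + p.2 • δ) (fun _ _ => by simp) ?_
        rintro ⟨x, a⟩ hx ⟨y, b⟩ hy h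
        simp only [hR0, coe_product, coe_filter, mem_univ, true_and, Set.mem_prod,
          Set.mem_ofPred_eq, coe_range, Set.mem_Iio] at hx hy
        simp only at h
        have hx0 : x = q x := by
          have := hj x
          rw [hx.1, zero_nsmul] at this
          exact (sub_eq_zero.mp this.symm)
        have hy0 : y = q y := by
          have := hj y
          rw [hy.1, zero_nsmul] at this
          exact (sub_eq_zero.mp this.symm)
        have hxy : x = y := by
          rw [hx0, hy0, hq x (x + a • δ) ⟨a, by rw [natCast_zsmul]; ring⟩, h,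
            ← hq y (y + b • δ) ⟨b, by rw [natCast_zsmul]; ring⟩]
        subst hxy
        have hab : a • δ = b • δ := add_left_cancel h
        rw [hinj a b hx.2 hy.2 hab]
      rwa [Finset.card_product, Finset.card_range, Finset.card_univ, ZMod.card] at h5
    have h6 : R0.card * n.minFac ≤ n := (Nat.mul_le_mul_left _ hmin).trans h4
    have h7 : 2 * R.card ≤ n + R0.card := by omega
    calc 2 * R.card * n.minFac ≤ (n + R0.card) * n.minFac := Nat.mul_le_mul_right _ h7
      _ = n * n.minFac + R0.card * n.minFac := by ring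
      _ ≤ n * n.minFac + n := by omega

theorem hasVal_pos [NeZero n] (hodd : Odd n) (m : ZMod n → ℤ) (hpos : ∀ i, 0 ≤ m i)
    (hτ : 2 ≤ (univ.filter (fun i => m i ≠ 0)).card) (c : ℤ)
    (hc : 2 * c * n.minFac ≤ n * n.minFac - n) : Pool.Agent.Helper18.Katz.HasVal m univ c := by
  obtain ⟨x, hx, y, hy, hxy⟩ := Finset.one_lt_card.mp
    (show 1 < (univ.filter (fun i => m i ≠ 0)).card by omega)
  simp only [mem_filter, mem_univ, true_and] at hx hy
  obtain ⟨R, hR, hcard⟩ := pairs hodd (δ := y - x) (sub_ne_zero.mpr hxy.symm)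
  have h1 := Pool.Agent.Helper18.Katz.hasVal_cover m hpos R.toList univ (by
    intro l _
    rcases hR (l + x) with h | h
    · exact ⟨l + x, Finset.mem_toList.mpr h, by rwa [show l + x - l = x by ring]⟩
    · exact ⟨l + x + (y - x), Finset.mem_toList.mpr h, by
        rwa [show l + x + (y - x) - l = y by ring]⟩)
  refine h1.mono ?_
  rw [Finset.length_toList, Finset.card_univ, ZMod.card]
  have h2 : (2 * R.card * n.minFac : ℤ) ≤ n * n.minFac + n := by exact_mod_cast hcard
  have h3 : (0 : ℤ) < n.minFac := by exact_mod_cast Nat.minFac_pos n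
  by_contra hlt
  push Not at hlt
  have h4 : (n : ℤ) + 1 ≤ c + R.card := by linarith
  nlinarith

end Helper84KZ
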